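import Pool.Agent.Helper98.RD.Stat

/-!
# Definitions for the statement of theorem G_2

`Lam deg` (free graded-commutative algebra), `gen`, `mon`, `MinimalSullivan`: `Helper2/GCA/Lam.lean`; `idealSpan`, `CohFin`, `IsExt`:
`Helper2/GCA/Lam.lean`, `Helper2/AN/Stmt2.lean`; `GoodAt`, `EvenOnto`: `Helper98/RD/Stat.lean`.
-/

set_option autoImplicit false

namespace Anick2

/-- `ΛA` is a sub-differential algebra, `O ⊆ A` consists of letters of odd degree, `ΛO` is a sub-differential algebra,
and the quotient `ΛA/(O)` is a pure algebra: for `a ∈ A`, `d a` is a combination of words in the letters of `A` which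
contain a letter of `O` or, if `deg a` is odd, have only letters of even degree. -/
structure MinimalSullivan.PureMod {ι : Type} {deg : ι → ℕ} (S : MinimalSullivan deg) (A O : Set ι) :
    Prop where
  sub : O ⊆ A
  odd : ∀ a ∈ O, Odd (deg a)
  d_O : ∀ a ∈ O, S.d (gen deg a) ∈ Submodule.span ℚ {x | ∃ l : List ι, (∀ i ∈ l, i ∈ O) ∧
    x = mon deg l}
  d_A : ∀ a ∈ A, S.d (gen deg a) ∈ Submodule.span ℚ {x | ∃ l : List ι, (∀ i ∈ l, i ∈ A) ∧
    ((∃ i ∈ l, i ∈ O) ∨ (Odd (deg a) ∧ ∀ i ∈ l, Even (deg i))) ∧ x = mon deg l}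

/-- Every even generator `t` lies in, or has its differential in the ideal generated by, a set `A` of generators as
in `PureMod` (`A` and `O` may depend on `t`). -/
def MinimalSullivan.LocallyPureMod {ι : Type} {deg : ι → ℕ} (S : MinimalSullivan deg) : Prop :=
  ∀ t, Even (deg t) → ∃ A O : Set ι, S.PureMod A O ∧
    (t ∈ A ∨ S.d (gen deg t) ∈ idealSpan (gen deg '' A))

end Anick2
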