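import Pool.Agent.Helper98.G2.UB
import Pool.Agent.Helper98.RD.Univ

/-!
G2-R1. The universal coformal algebra of `(B, pd)` exists.

Copy `Helper98/RD/Univ.lean` with `B`, `pd b`, `gdeg pd`, `gx pd`, `GI pd` in the place of `UB N`, `b.1`, `udeg N`, `ux N`, `UI N` (nothing else
changes: `B` finite replaces `UB N` finite; the Sullivan condition there is for a well-founded order/degree: same proof).
-/

set_option autoImplicit false

namespace Anick2

section
variable {B : Type} [Fintype B] {pd : B → ℕ}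

private theorem r1_mem (a b : B) :
    gx pd a b ∈ hom (gdeg pd) (pd a - pd b + 1) := by
  by_cases h : pd b < pd a
  · rw [gx_pos pd h]
    exact gen_mem_hom (gdeg pd) ⟨(a, b), h⟩
  · rw [gx_neg pd h]
    exact zero_mem _

private theorem r1_term (a c b : B) :
    gx pd a c * gx pd c b ∈ hom (gdeg pd) (pd a - pd b + 1 + 1) := by
  by_cases h1 : pd c < pd a
  · by_cases h2 : pd b < pd c
    · have h := mul_mem_hom (gdeg pd) (r1_mem a c) (r1_mem c b)
      have h1' : pd c < pd a := h1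
      have h2' : pd b < pd c := h2
      have e : pd a - pd c + 1 + (pd c - pd b + 1) =
          pd a - pd b + 1 + 1 := by omega
      rw [e] at h
      exact h
    · rw [gx_neg pd h2, mul_zero]
      exact zero_mem _
  · rw [gx_neg pd h1, zero_mul]
    exact zero_mem _

private theorem r1_sum_mul (f : B → Lam (gdeg pd)) (y : Lam (gdeg pd)) :
    (∑ c : B, f c) * y = ∑ c : B, f c * y := Finset.sum_mul _ _ _

private theorem r1_mul_sum (f : B → Lam (gdeg pd)) (y : Lam (gdeg pd)) :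
    y * (∑ c : B, f c) = ∑ c : B, y * f c := Finset.mul_sum _ _ _

/-- The values of the differential. -/
private noncomputable def r1D (pd : B → ℕ) (a b : B) : Lam (gdeg pd) :=
  ∑ c : B, (-1 : ℚ) ^ (pd a + pd c + 1) • (gx pd a c * gx pd c b)

private theorem r1D_mem (a b : B) :
    r1D pd a b ∈ hom (gdeg pd) (pd a - pd b + 1 + 1) :=
  Submodule.sum_mem _ fun c _ => Submodule.smul_mem _ _ (r1_term a c b)

private theorem r1D_mem' (pd : B → ℕ) (p : GI pd) : r1D pd p.1.1 p.1.2 ∈ hom (gdeg pd) (gdeg pd p + 1) :=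
  r1D_mem p.1.1 p.1.2

private theorem r1D_neg {a b : B} (h : ¬ pd b < pd a) : r1D pd a b = 0 := by
  unfold r1D
  refine Finset.sum_eq_zero fun c _ => ?_
  by_cases h1 : pd c < pd a
  · have h2 : ¬ pd b < pd c := fun h2 => h (lt_trans h2 h1)
    rw [gx_neg pd h2, mul_zero, smul_zero]
  · rw [gx_neg pd h1, zero_mul, smul_zero]

/-- The differential. -/
private noncomputable def r1d (pd : B → ℕ) : Lam (gdeg pd) →ₗ[ℚ] Lam (gdeg pd) :=
  der (gdeg pd) (fun p => r1D pd p.1.1 p.1.2) (r1D_mem' pd)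

private theorem r1d_gx (a b : B) : r1d pd (gx pd a b) = r1D pd a b := by
  by_cases h : pd b < pd a
  · rw [gx_pos pd h]
    exact der_gen (gdeg pd) _ (r1D_mem' pd) ⟨(a, b), h⟩
  · rw [gx_neg pd h, map_zero, r1D_neg h]

private theorem r1d_mul (a c : B) (y : Lam (gdeg pd)) :
    r1d pd (gx pd a c * y) =
      r1D pd a c * y + (-1 : ℚ) ^ (pd a + pd c + 1) • (gx pd a c * r1d pd y) := by
  have h := der_leibniz (gdeg pd) (fun p => r1D pd p.1.1 p.1.2) (r1D_mem' pd) (r1_mem a c) y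
  have h0 : der (gdeg pd) (fun p => r1D pd p.1.1 p.1.2) (r1D_mem' pd) (gx pd a c) = r1D pd a c :=
    r1d_gx a c
  rw [h0] at h
  refine h.trans ?_
  by_cases h1 : pd c < pd a
  · have h1' : pd c < pd a := h1
    have e : pd a + pd c + 1 = (pd a - pd c + 1) + 2 * pd c := by omega
    have e2 : (-1 : ℚ) ^ (pd a + pd c + 1) = (-1 : ℚ) ^ (pd a - pd c + 1) := by
      rw [e, pow_add, pow_mul]
      simp
    rw [e2]
    rfl
  · rw [gx_neg pd h1, zero_mul, zero_mul, smul_zero, smul_zero]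

private theorem r1d_r1D (a b : B) : r1d pd (r1D pd a b) = 0 := by
  have key : r1d pd (r1D pd a b) =
      (∑ c : B, ∑ e : B,
        ((-1 : ℚ) ^ (pd a + pd c + 1) * (-1 : ℚ) ^ (pd a + pd e + 1)) •
          (gx pd a e * gx pd e c * gx pd c b)) +
      ∑ c : B, ∑ e : B,
        ((-1 : ℚ) ^ (pd a + pd c + 1) * ((-1 : ℚ) ^ (pd a + pd c + 1) *
          (-1 : ℚ) ^ (pd c + pd e + 1))) •
          (gx pd a c * gx pd c e * gx pd e b) := by
    have h1 : r1d pd (r1D pd a b) = ∑ c : B, (-1 : ℚ) ^ (pd a + pd c + 1) •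
        (r1D pd a c * gx pd c b + (-1 : ℚ) ^ (pd a + pd c + 1) •
          (gx pd a c * r1D pd c b)) := by
      conv_lhs => rw [r1D]
      rw [map_sum]
      refine Finset.sum_congr rfl fun c _ => ?_
      rw [map_smul, r1d_mul, r1d_gx]
    rw [h1, ← Finset.sum_add_distrib]
    refine Finset.sum_congr rfl fun c _ => ?_
    rw [smul_add]
    congr 1
    · unfold r1D
      rw [r1_sum_mul, Finset.smul_sum]
      refine Finset.sum_congr rfl fun e _ => ?_
      rw [smul_mul_assoc, smul_smul]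
    · unfold r1D
      rw [r1_mul_sum, Finset.smul_sum, Finset.smul_sum]
      refine Finset.sum_congr rfl fun e _ => ?_
      rw [mul_smul_comm, smul_smul, smul_smul, mul_assoc (gx pd a c), mul_assoc ((-1 : ℚ) ^ _)]
  rw [key]
  conv_lhs =>
    rw [Finset.sum_comm (s := (Finset.univ : Finset B)) (t := (Finset.univ : Finset B))
      (f := fun c e => ((-1 : ℚ) ^ (pd a + pd c + 1) *
        ((-1 : ℚ) ^ (pd a + pd c + 1) *
          (-1 : ℚ) ^ (pd c + pd e + 1))) •
          (gx pd a c * gx pd c e * gx pd e b))]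
  rw [← Finset.sum_add_distrib]
  refine Finset.sum_eq_zero fun c _ => ?_
  rw [← Finset.sum_add_distrib]
  refine Finset.sum_eq_zero fun e _ => ?_
  rw [← add_smul]
  have hz : (-1 : ℚ) ^ (pd a + pd c + 1) * (-1 : ℚ) ^ (pd a + pd e + 1) +
      (-1 : ℚ) ^ (pd a + pd e + 1) * ((-1 : ℚ) ^ (pd a + pd e + 1) *
          (-1 : ℚ) ^ (pd e + pd c + 1)) = 0 := by
    have h2 : ∀ n : ℕ, (-1 : ℚ) ^ n * (-1 : ℚ) ^ n = 1 := fun n => by
      rw [← pow_add, ← two_mul, pow_mul]; simp
    have h3 := h2 (pd a)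
    have h4 := h2 (pd e)
    simp only [pow_add, pow_one]
    linear_combination ((-1 : ℚ) ^ (pd c) * (-1 : ℚ) ^ (pd e)) * h3 -
      ((-1 : ℚ) ^ (pd e) * (-1 : ℚ) ^ (pd c) * (-1 : ℚ) ^ (pd a) * (-1 : ℚ) ^ (pd a)) * h4
        - ((-1 : ℚ) ^ (pd e) * (-1 : ℚ) ^ (pd c)) * h3
  rw [hz, zero_smul]

end

theorem exists_univB {B : Type} [Fintype B] (pd : B → ℕ) :
    ∃ U : MinimalSullivan (gdeg pd), IsUnivB pd U := by
  refine ⟨{
    two_le := fun p => ?_
    d := r1d pd
    isDifferential := ?_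
    sullivan := fun p => ?_
    minimal := fun p => ?_ }, fun a b => r1d_gx a b⟩
  · have h : pd p.1.2 < pd p.1.1 := p.2
    unfold gdeg
    omega
  · refine ⟨fun n a ha => der_mem (gdeg pd) _ (r1D_mem' pd) ha,
      fun n a ha b => der_leibniz (gdeg pd) _ (r1D_mem' pd) ha b, fun a => ?_⟩
    exact der_sq (gdeg pd) _ (r1D_mem' pd) (fun i => r1d_r1D i.1.1 i.1.2) a
  · have h0 : r1d pd (gen (gdeg pd) p) = r1D pd p.1.1 p.1.2 := der_gen (gdeg pd) _ (r1D_mem' pd) p
    rw [h0]
    unfold r1D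
    refine sum_mem fun c _ => ?_
    refine Subalgebra.smul_mem _ ?_ _
    by_cases h1 : pd c < pd p.1.1
    · by_cases h2 : pd p.1.2 < pd c
      · have h1' : pd c < pd p.1.1 := h1
        have h2' : pd p.1.2 < pd c := h2
        rw [gx_pos pd h1, gx_pos pd h2]
        refine mul_mem (Algebra.subset_adjoin ⟨⟨(p.1.1, c), h1⟩, ?_, rfl⟩)
          (Algebra.subset_adjoin ⟨⟨(c, p.1.2), h2⟩, ?_, rfl⟩)
        · change pd p.1.1 - pd c + 1 < pd p.1.1 - pd p.1.2 + 1
          omega
        · change pd c - pd p.1.2 + 1 < pd p.1.1 - pd p.1.2 + 1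
          omega
      · rw [gx_neg pd h2, mul_zero]
        exact zero_mem _
    · rw [gx_neg pd h1, zero_mul]
      exact zero_mem _
  · have h0 : r1d pd (gen (gdeg pd) p) = r1D pd p.1.1 p.1.2 := der_gen (gdeg pd) _ (r1D_mem' pd) p
    rw [h0]
    unfold r1D
    refine Submodule.sum_mem _ fun c _ => ?_
    refine Submodule.smul_mem _ _ ?_
    by_cases h1 : pd c < pd p.1.1
    · by_cases h2 : pd p.1.2 < pd c
      · rw [gx_pos pd h1, gx_pos pd h2]
        exact Submodule.subset_span ⟨[⟨(p.1.1, c), h1⟩, ⟨(c, p.1.2), h2⟩], by simp, by simp⟩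
      · rw [gx_neg pd h2, mul_zero]
        exact zero_mem _
    · rw [gx_neg pd h1, zero_mul]
      exact zero_mem _

end Anick2
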