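import Pool.Agent.Helper98.G2.UB

/-!
G2-R2. A flat triangular matrix over `(ΛW, d)` gives a morphism from the universal algebra of `(B, pd)`.

Copy the proof of `exists_mapU` (`Helper98/RD/MapU.lean`; `mu_gr`, `mu_sgn`, `mu_comm` are private there: copy them) without the injection `j`:
`J = Lam.lift (gdeg pd) (fun p => -X p.1.1 p.1.2)`, `J (gx pd a b) = -X a b` (both `0` if `¬ pd b < pd a`, `IsMat.zero`), and on generators
`J (U.d (gx a b)) = ∑_c (-1)^(..) X a c * X c b = -S.d (X a b)`.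
-/

set_option autoImplicit false

namespace Anick2

attribute [local irreducible] instRingLam

section
variable {ι₁ ι₂ : Type} {deg₁ : ι₁ → ℕ} {deg₂ : ι₂ → ℕ}

private theorem mb_gr {F : Lam deg₁ →ₐ[ℚ] Lam deg₂}
    (hF : ∀ i, F (gen deg₁ i) ∈ hom deg₂ (deg₁ i)) (n : ℕ) (a : Lam deg₁) (ha : a ∈ hom deg₁ n) :
    F a ∈ hom deg₂ n := by
  have key : ∀ l : List ι₁, F (mon deg₁ l) ∈ hom deg₂ (degSum deg₁ l) := by
    intro l
    induction l with
    | nil =>
      rw [mon_nil, map_one]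
      exact mon_mem_hom deg₂ []
    | cons i l ih =>
      rw [mon_cons, map_mul, degSum_cons]
      exact mul_mem_hom _ (hF i) ih
  refine hom_induction _ (C := fun a => F a ∈ hom deg₂ n) (fun l hl => ?_) ?_
    (fun a b ha hb => by rw [map_add]; exact add_mem ha hb)
    (fun r a ha => by rw [map_smul]; exact Submodule.smul_mem _ _ ha) ha
  · rw [← hl]; exact key l
  · rw [map_zero]; exact zero_mem _

private theorem mb_sgn {F : Lam deg₁ →ₐ[ℚ] Lam deg₂}
    (hF : ∀ i, F (gen deg₁ i) ∈ hom deg₂ (deg₁ i)) (a : Lam deg₁) :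
    F (sgn deg₁ a) = sgn deg₂ (F a) := by
  have : F.comp (sgn deg₁) = (sgn deg₂).comp F := by
    refine Lam.algHom_ext _ fun i => ?_
    rw [AlgHom.comp_apply, AlgHom.comp_apply, sgn_gen, map_smul, sgn_hom deg₂ (hF i)]
  exact congrArg (fun g : Lam deg₁ →ₐ[ℚ] Lam deg₂ => g a) this

private theorem mb_comm {F : Lam deg₁ →ₐ[ℚ] Lam deg₂}
    (hF : ∀ i, F (gen deg₁ i) ∈ hom deg₂ (deg₁ i))
    {d₁ : Lam deg₁ →ₗ[ℚ] Lam deg₁} {d₂ : Lam deg₂ →ₗ[ℚ] Lam deg₂}
    (h1 : d₁ 1 = 0) (h2 : d₂ 1 = 0)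
    (m1 : ∀ a b, d₁ (a * b) = d₁ a * b + sgn deg₁ a * d₁ b)
    (m2 : ∀ a b, d₂ (a * b) = d₂ a * b + sgn deg₂ a * d₂ b)
    (hg : ∀ i, d₂ (F (gen deg₁ i)) = F (d₁ (gen deg₁ i))) (a : Lam deg₁) :
    d₂ (F a) = F (d₁ a) := by
  have : d₂.comp F.toLinearMap = F.toLinearMap.comp d₁ := by
    refine Lam.linearMap_ext _ fun l => ?_
    rw [LinearMap.comp_apply, LinearMap.comp_apply, AlgHom.toLinearMap_apply,
      AlgHom.toLinearMap_apply]
    induction l with
    | nil => rw [mon_nil, map_one, h1, h2, map_zero]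
    | cons i l ih =>
      rw [mon_cons, map_mul, m1, m2, ih, hg, map_add, map_mul, map_mul, mb_sgn hF]
  exact congrArg (fun g : Lam deg₁ →ₗ[ℚ] Lam deg₂ => g a) this

end

theorem exists_mapB {ι : Type} {deg : ι → ℕ} (S : MinimalSullivan deg) {B : Type} [Fintype B]
    {pd : B → ℕ} {X : B → B → Lam deg} (h : IsMat S pd X) (U : MinimalSullivan (gdeg pd))
    (hU : IsUnivB pd U) :
    ∃ J : Lam (gdeg pd) →ₐ[ℚ] Lam deg,
      (∀ n, ∀ a ∈ hom (gdeg pd) n, J a ∈ hom deg n) ∧ (∀ a, S.d (J a) = J (U.d a)) ∧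
      ∀ a b, J (gx pd a b) = -X a b := by
  classical
  have hv : ∀ p : GI pd, -X p.1.1 p.1.2 ∈ hom deg (gdeg pd p) := fun p =>
    neg_mem (h.mem _ _ p.2)
  let J : Lam (gdeg pd) →ₐ[ℚ] Lam deg :=
    Lam.lift (gdeg pd) (fun p => -X p.1.1 p.1.2) (fun p q => hom_comm _ (hv p) (hv q))
  have hJg : ∀ p : GI pd, J (gen _ p) = -X p.1.1 p.1.2 := fun p => Lam.lift_gen _ _ _ p
  have hJm : ∀ p : GI pd, J (gen _ p) ∈ hom deg (gdeg pd p) := fun p => by
    rw [hJg]; exact hv p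
  have hJu : ∀ a b : B, J (gx pd a b) = -X a b := by
    intro a b
    by_cases hab : pd b < pd a
    · rw [gx_pos pd hab, hJg]
    · rw [gx_neg pd hab, map_zero, h.zero a b hab, neg_zero]
  have hd : ∀ a b : B, S.d (-X a b) = J (U.d (gx pd a b)) := by
    intro a b
    have h1 : J (U.d (gx pd a b)) =
        ∑ c : B, (-1 : ℚ) ^ (pd a + pd c + 1) • (X a c * X c b) := by
      rw [hU a b, map_sum]
      refine Finset.sum_congr rfl fun c _ => ?_
      rw [map_smul, map_mul, hJu, hJu, neg_mul_neg]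
    rw [h1, map_neg, h.flat, neg_neg]
  refine ⟨J, fun n a ha => mb_gr hJm n a ha, fun a => ?_, hJu⟩
  refine mb_comm hJm (d_one U.isDifferential) (d_one S.isDifferential)
    (d_mul U.isDifferential) (d_mul S.isDifferential) (fun p => ?_) a
  rw [hJg]
  have h2 := hd p.1.1 p.1.2
  rw [gx_pos pd p.2] at h2
  exact h2

end Anick2
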