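import Pool.Agent.Helper98.RD.MapU
import Pool.Agent.Helper98.RD.ACex
import Pool.Agent.Helper98.RD.DiR
import Pool.Agent.Helper98.RD.Tens
import Pool.Agent.Helper98.RD.BasisS

/-!
G2-R3. The matrix of the acyclic closure with control of the degrees.

The proof of `exists_mat` (`Helper98/RD/MatEx.lean`) with `m = M - 1` in place of the maximal
degree and the set of all letters, `{i | deg i < M + 1}`. The bounds: `pd b ≤ M - 1` from
`exists_basisS`; if `pd b ≠ 0` then `K ≤ pd b`, because `ω b` is a nonzero element of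
`homS _ T (pd b)`, which is spanned by the monomials of degree `pd b`, so there is a nonempty
word of degree `pd b` in letters of degree `deg i - 1 ≥ K`.
-/

set_option autoImplicit false

namespace Anick2

attribute [local irreducible] instRingLam

section aux

variable {ι : Type} (deg : ι → ℕ)

private noncomputable def meL : Lam deg →ₐ[ℚ] Lam (sd deg) :=
  iL deg (fun i => deg i - 1)

private noncomputable def meR : Lam (fun i => deg i - 1) →ₐ[ℚ] Lam (sd deg) :=
  iR deg (fun i => deg i - 1)

private theorem meL_hom {n : ℕ} {a : Lam deg} (ha : a ∈ hom deg n) :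
    meL deg a ∈ hom (sd deg) n :=
  mapL_hom (fun _ => rfl) ha

private theorem meL_gen (i : ι) : meL deg (gen deg i) = gen (sd deg) (Sum.inl i) :=
  mapL_gen (deg := sd deg) (f := Sum.inl) (fun _ => rfl) i

private theorem meR_gen (k : ι) :
    meR deg (gen (fun i => deg i - 1) k) = gen (sd deg) (Sum.inr k) :=
  mapL_gen (deg := sd deg) (f := Sum.inr) (fun _ => rfl) k

private theorem me_one_ne {κ : Type} (deg' : κ → ℕ) : (1 : Lam deg') ≠ 0 := by
  intro h
  have h1 := congrArg (Lam.lift (B := ℚ) deg' (fun _ => (0 : ℚ)) (by intro i j; simp)) h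
  rw [map_one, map_zero] at h1
  exact one_ne_zero h1

/-- Expansion in a family of homogeneous elements. -/
private theorem me_expand {κ : Type} {deg' : κ → ℕ} {B : Type} [Fintype B] {pd : B → ℕ}
    {ω : B → Lam deg'} {q : ℕ} {b : Lam deg'}
    (hb : b ∈ Submodule.span ℚ {x | ∃ a, pd a = q ∧ x = ω a}) :
    ∃ c : B → ℚ, (∀ a, pd a ≠ q → c a = 0) ∧ b = ∑ a, c a • ω a := by
  classical
  induction hb using Submodule.span_induction with
  | mem x hx =>
    obtain ⟨a, ha, rfl⟩ := hx
    refine ⟨fun a' => if a' = a then 1 else 0, fun a' ha' => if_neg ?_, ?_⟩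
    · rintro rfl
      exact ha' ha
    · rw [Finset.sum_eq_single a]
      · show ω a = (if a = a then (1 : ℚ) else 0) • ω a
        rw [if_pos rfl, one_smul]
      · intro a' _ ha'
        show (if a' = a then (1 : ℚ) else 0) • ω a' = 0
        rw [if_neg ha', zero_smul]
      · intro h
        exact absurd (Finset.mem_univ a) h
  | zero =>
    refine ⟨fun _ => 0, fun _ _ => rfl, ?_⟩
    rw [Finset.sum_eq_zero]
    intro a _
    rw [zero_smul]
  | add x y _ _ hx hy =>
    obtain ⟨c, hc, rfl⟩ := hx
    obtain ⟨c', hc', rfl⟩ := hy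
    refine ⟨fun a => c a + c' a, fun a ha => ?_, ?_⟩
    · show c a + c' a = 0
      rw [hc a ha, hc' a ha, add_zero]
    · rw [← Finset.sum_add_distrib]
      exact Finset.sum_congr rfl fun a _ => (add_smul _ _ _).symm
  | smul r x _ hx =>
    obtain ⟨c, hc, rfl⟩ := hx
    refine ⟨fun a => r * c a, fun a ha => ?_, ?_⟩
    · show r * c a = 0
      rw [hc a ha, mul_zero]
    · rw [Finset.smul_sum]
      exact Finset.sum_congr rfl fun a _ => smul_smul _ _ _

private theorem me_SDspan (n p : ℕ) : SDspan deg n p =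
    Submodule.span ℚ {e : Lam (sd deg) | ∃ (k q : ℕ) (a : Lam deg) (b : Lam (fun i => deg i - 1)),
      2 ≤ k ∧ k + q = p + 1 ∧ a ∈ hom deg k ∧
      b ∈ homS (fun i => deg i - 1) {i | deg i < n} q ∧ e = meL deg a * meR deg b} := rfl

/-- Every element of `SDspan` is a combination of the `ω b` with coefficients in `ΛW`. -/
private theorem me_SD {B : Type} [Fintype B] {pd : B → ℕ} {ω : B → Lam (fun i => deg i - 1)}
    {n m p : ℕ} (hp : p ≤ m)
    (hspan : ∀ q ≤ m, homS (fun i => deg i - 1) {i | deg i < n} q ≤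
      Submodule.span ℚ {x | ∃ a, pd a = q ∧ x = ω a})
    {e : Lam (sd deg)} (he : e ∈ SDspan deg n p) :
    ∃ x : B → Lam deg, (∀ b, pd b < p → x b ∈ hom deg (p - pd b + 1)) ∧
      (∀ b, ¬ pd b < p → x b = 0) ∧ e = ∑ b, meL deg (x b) * meR deg (ω b) := by
  rw [me_SDspan] at he
  induction he using Submodule.span_induction with
  | mem y hy =>
    obtain ⟨k, q, a, b, hk, hkq, ha, hb, rfl⟩ := hy
    obtain ⟨c, hc, rfl⟩ := me_expand (hspan q (by omega) hb)
    refine ⟨fun b => c b • a, fun b hb => ?_, fun b hb => ?_, ?_⟩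
    · show c b • a ∈ _
      by_cases h : pd b = q
      · have h1 : p - pd b + 1 = k := by omega
        rw [h1]
        exact Submodule.smul_mem _ _ ha
      · rw [hc b h, zero_smul]
        exact zero_mem _
    · show c b • a = 0
      rw [hc b (by omega), zero_smul]
    · show meL deg a * meR deg (∑ b, c b • ω b) = _
      rw [map_sum, Finset.mul_sum]
      refine Finset.sum_congr rfl fun b _ => ?_
      rw [map_smul, map_smul, mul_smul_comm, smul_mul_assoc]
  | zero =>
    refine ⟨fun _ => 0, fun _ _ => zero_mem _, fun _ _ => rfl, ?_⟩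
    rw [Finset.sum_eq_zero]
    intro a _
    rw [map_zero, zero_mul]
  | add x y _ _ hx hy =>
    obtain ⟨u, hu1, hu2, rfl⟩ := hx
    obtain ⟨v, hv1, hv2, rfl⟩ := hy
    refine ⟨fun b => u b + v b, fun b hb => add_mem (hu1 b hb) (hv1 b hb), fun b hb => ?_, ?_⟩
    · show u b + v b = 0
      rw [hu2 b hb, hv2 b hb, add_zero]
    · rw [← Finset.sum_add_distrib]
      refine Finset.sum_congr rfl fun b _ => ?_
      rw [map_add, add_mul]
  | smul r x _ hx =>
    obtain ⟨u, hu1, hu2, rfl⟩ := hx
    refine ⟨fun b => r • u b, fun b hb => Submodule.smul_mem _ _ (hu1 b hb), fun b hb => ?_, ?_⟩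
    · show r • u b = 0
      rw [hu2 b hb, smul_zero]
    · rw [Finset.smul_sum]
      refine Finset.sum_congr rfl fun b _ => ?_
      rw [map_smul, smul_mul_assoc]

/-- `σ i` is a combination of the `ω b` of positive degree with coefficients in `ΛW`. -/
private theorem me_sigma {B : Type} [Fintype B] {pd : B → ℕ} {ω : B → Lam (fun i => deg i - 1)}
    {n m : ℕ} {i : ι} (hi : deg i ≤ m + 1) (hin : deg i < n)
    (hspan : ∀ q ≤ m, homS (fun i => deg i - 1) {i | deg i < n} q ≤
      Submodule.span ℚ {x | ∃ a, pd a = q ∧ x = ω a})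
    {e : Lam (sd deg)}
    (he : e ∈ Submodule.span ℚ {e : Lam (sd deg) | ∃ (k q : ℕ) (a : Lam deg)
      (b : Lam (fun i => deg i - 1)), 2 ≤ k ∧ 1 ≤ q ∧ k + q = deg i ∧ a ∈ hom deg k ∧
      b ∈ homS (fun i => deg i - 1) {j | deg j < deg i} q ∧ e = meL deg a * meR deg b}) :
    ∃ x : B → Lam deg, (∀ b, pd b = 0 → x b = 0) ∧
      e = ∑ b, meL deg (x b) * meR deg (ω b) := by
  induction he using Submodule.span_induction with
  | mem y hy =>
    obtain ⟨k, q, a, b, hk, hq, hkq, ha, hb, rfl⟩ := hy
    have hb' := homS_mono _ (fun j (hj : deg j < deg i) => (lt_trans hj hin : deg j < n)) q hb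
    obtain ⟨c, hc, rfl⟩ := me_expand (hspan q (by omega) hb')
    refine ⟨fun b => c b • a, fun b hb => ?_, ?_⟩
    · show c b • a = 0
      rw [hc b (by omega), zero_smul]
    · show meL deg a * meR deg (∑ b, c b • ω b) = _
      rw [map_sum, Finset.mul_sum]
      refine Finset.sum_congr rfl fun b _ => ?_
      rw [map_smul, map_smul, mul_smul_comm, smul_mul_assoc]
  | zero =>
    refine ⟨fun _ => 0, fun _ _ => rfl, ?_⟩
    rw [Finset.sum_eq_zero]
    intro a _
    rw [map_zero, zero_mul]
  | add x y _ _ hx hy =>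
    obtain ⟨u, hu2, rfl⟩ := hx
    obtain ⟨v, hv2, rfl⟩ := hy
    refine ⟨fun b => u b + v b, fun b hb => ?_, ?_⟩
    · show u b + v b = 0
      rw [hu2 b hb, hv2 b hb, add_zero]
    · rw [← Finset.sum_add_distrib]
      refine Finset.sum_congr rfl fun b _ => ?_
      rw [map_add, add_mul]
  | smul r x _ hx =>
    obtain ⟨u, hu2, rfl⟩ := hx
    refine ⟨fun b => r • u b, fun b hb => ?_, ?_⟩
    · show r • u b = 0
      rw [hu2 b hb, smul_zero]
    · rw [Finset.smul_sum]
      refine Finset.sum_congr rfl fun b _ => ?_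
      rw [map_smul, smul_mul_assoc]

/-- Coefficients of a combination of the `ω b` are unique. -/
private theorem me_uniq {B : Type} [Fintype B] {ω : B → Lam (fun i => deg i - 1)}
    (hω : LinearIndependent ℚ ω) {x y : B → Lam deg}
    (h : ∑ b, meL deg (x b) * meR deg (ω b) = ∑ b, meL deg (y b) * meR deg (ω b)) (b : B) :
    x b = y b := by
  have h1 : ∑ b, iL deg (fun i => deg i - 1) (x b - y b) * iR deg (fun i => deg i - 1) (ω b)
      = 0 := by
    have h2 : ∑ b, meL deg (x b - y b) * meR deg (ω b) = 0 := by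
      rw [← sub_eq_zero, ← Finset.sum_sub_distrib] at h
      rw [← h]
      refine Finset.sum_congr rfl fun b _ => ?_
      rw [map_sub, sub_mul]
    exact h2
  exact sub_eq_zero.1 (iLR_indep deg (fun i => deg i - 1) hω (fun b => x b - y b) h1 b)

/-- A nonzero homogeneous element of degree `p ≠ 0` in letters of degree `≥ K` has `K ≤ p`. -/
private theorem me_low {κ : Type} {deg' : κ → ℕ} {K p : ℕ} (hK : ∀ i, K ≤ deg' i) {T : Set κ}
    {x : Lam deg'} (hx : x ∈ homS deg' T p) (h0 : x ≠ 0) (hp : p ≠ 0) : K ≤ p := by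
  by_contra hcon
  refine h0 ?_
  have h1 : homS deg' T p ≤ ⊥ := by
    refine Submodule.span_le.2 ?_
    rintro y ⟨l, hl, hl2, rfl⟩
    exfalso
    cases l with
    | nil => exact hp hl2.symm
    | cons i l =>
      have h3 := hK i
      have h4 : degSum deg' (i :: l) = deg' i + degSum deg' l := by
        simp [degSum]
      omega
  exact (Submodule.mem_bot ℚ).1 (h1 hx)

end aux

theorem exists_mat_bd {ι : Type} [Finite ι] {deg : ι → ℕ} (S : MinimalSullivan deg) (K M : ℕ)
    (hk : ∀ i, K + 1 ≤ deg i) (hM : ∀ i, deg i ≤ M) :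
    ∃ (B : Type) (_ : Fintype B) (pd : B → ℕ) (X : B → B → Lam deg), IsMat S pd X ∧
      (∀ i, gen deg i ∈ Submodule.span ℚ {x | ∃ a b, pd b < pd a ∧ pd a - pd b + 1 = deg i ∧
        x = X a b}) ∧ ∀ b, pd b = 0 ∨ (K ≤ pd b ∧ pd b ≤ M - 1) := by
  classical
  obtain ⟨D, σ, h⟩ := exists_AC S
  obtain ⟨m, hmM⟩ : ∃ m, m = M - 1 := ⟨_, rfl⟩
  have hm' : ∀ i, deg i ≤ m + 1 := fun i => by
    have := hM i
    omega
  obtain ⟨B, hB, pd, ω, hpd, hω, hind, hspan⟩ := exists_basisS (fun i => deg i - 1)
    (fun i => by have := S.two_le i; omega) {i | deg i < m + 2} (Set.toFinite _) m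
  have hD : ∀ a, ∃ x : B → Lam deg, (∀ b, pd b < pd a → x b ∈ hom deg (pd a - pd b + 1)) ∧
      (∀ b, ¬ pd b < pd a → x b = 0) ∧
      D (meR deg (ω a)) = ∑ b, meL deg (x b) * meR deg (ω b) := fun a =>
    me_SD deg (hpd a) hspan (d_iR h (m + 2) (pd a) (hω a))
  choose X hX1 hX2 hX3 using hD
  have hext : ∀ a, D (meL deg a) = meL deg (S.d a) := h.ext
  refine ⟨B, hB, pd, X, ⟨hX1, hX2, fun a b => ?_⟩, fun i => ?_, fun b => ?_⟩
  · -- flatness
    have h1 : D (D (meR deg (ω a))) = 0 := h.diff.d_d _
    have h2 : D (D (meR deg (ω a))) = ∑ c, meL deg (S.d (X a c) +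
        ∑ b, (-1 : ℚ) ^ (pd a + pd b + 1) • (X a b * X b c)) * meR deg (ω c) := by
      rw [hX3 a, map_sum]
      have h3 : ∀ b, D (meL deg (X a b) * meR deg (ω b)) =
          meL deg (S.d (X a b)) * meR deg (ω b) +
            ∑ c, (-1 : ℚ) ^ (pd a + pd b + 1) •
              (meL deg (X a b * X b c) * meR deg (ω c)) := by
        intro b
        by_cases hb : pd b < pd a
        · rw [h.diff.leibniz _ _ (meL_hom deg (hX1 a b hb)), hext, hX3 b, Finset.mul_sum,
            Finset.smul_sum]
          congr 1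
          refine Finset.sum_congr rfl fun c _ => ?_
          have h4 : (-1 : ℚ) ^ (pd a - pd b + 1) = (-1 : ℚ) ^ (pd a + pd b + 1) := by
            have h5 : pd a + pd b + 1 = (pd a - pd b + 1) + 2 * pd b := by omega
            rw [h5, pow_add _ (pd a - pd b + 1), pow_mul, neg_one_sq, one_pow, mul_one]
          rw [h4, map_mul, mul_assoc]
        · rw [hX2 a b hb, map_zero, map_zero, zero_mul, map_zero, map_zero, zero_mul, zero_add]
          symm
          refine Finset.sum_eq_zero fun c _ => ?_
          rw [zero_mul, map_zero, zero_mul, smul_zero]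
      rw [Finset.sum_congr rfl fun b _ => h3 b, Finset.sum_add_distrib, Finset.sum_comm,
        ← Finset.sum_add_distrib]
      refine Finset.sum_congr rfl fun c _ => ?_
      rw [map_add, add_mul, map_sum, Finset.sum_mul]
      congr 1
      refine Finset.sum_congr rfl fun b _ => ?_
      rw [map_smul, smul_mul_assoc]
    rw [h1] at h2
    have h3 : S.d (X a b) + ∑ c, (-1 : ℚ) ^ (pd a + pd c + 1) • (X a c * X c b) = 0 :=
      iLR_indep deg (fun i => deg i - 1) hind (fun c => S.d (X a c) +
        ∑ b, (-1 : ℚ) ^ (pd a + pd b + 1) • (X a b * X b c)) h2.symm b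
    exact eq_neg_of_add_eq_zero_left h3
  · -- generators
    have h2 := S.two_le i
    have hi := hm' i
    have hg : gen (fun i => deg i - 1) i ∈ homS (fun i => deg i - 1) {i | deg i < m + 2}
        (deg i - 1) := by
      have := mon_mem_homS (fun i => deg i - 1) (S := {i | deg i < m + 2}) [i]
        (by intro j hj; rw [List.mem_singleton.1 hj]; exact Nat.lt_succ_of_le hi)
      simpa using this
    obtain ⟨l, hl, hl'⟩ := me_expand (hspan _ (by omega) hg)
    have h1 : (1 : Lam (fun i => deg i - 1)) ∈ homS (fun i => deg i - 1) {i | deg i < m + 2}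
        0 := by
      have := mon_mem_homS (fun i => deg i - 1) (S := {i | deg i < m + 2}) [] (by simp)
      simpa using this
    obtain ⟨μ, hμ, hμ'⟩ := me_expand (hspan 0 (Nat.zero_le _) h1)
    obtain ⟨y, hy, hy'⟩ := me_sigma deg hi (Nat.lt_succ_of_le hi) hspan (sigma_mem h i)
    have e1 : D (meR deg (gen (fun i => deg i - 1) i)) =
        ∑ b, meL deg (∑ a, l a • X a b) * meR deg (ω b) := by
      rw [hl', map_sum, map_sum]
      have e2 : ∀ a, D (meR deg (l a • ω a)) =
          ∑ b, meL deg (l a • X a b) * meR deg (ω b) := by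
        intro a
        rw [map_smul, map_smul, hX3 a, Finset.smul_sum]
        refine Finset.sum_congr rfl fun b _ => ?_
        rw [map_smul, smul_mul_assoc]
      rw [Finset.sum_congr rfl fun a _ => e2 a, Finset.sum_comm]
      refine Finset.sum_congr rfl fun b _ => ?_
      rw [map_sum, Finset.sum_mul]
    have e3 : D (meR deg (gen (fun i => deg i - 1) i)) =
        ∑ b, meL deg (μ b • gen deg i - y b) * meR deg (ω b) := by
      rw [meR_gen, h.ds i, hy']
      have e4 : gen (sd deg) (Sum.inl i) =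
          ∑ b, meL deg (μ b • gen deg i) * meR deg (ω b) := by
        have e5 : gen (sd deg) (Sum.inl i) =
            meL deg (gen deg i) * meR deg (1 : Lam (fun i => deg i - 1)) := by
          rw [map_one, mul_one, meL_gen]
        rw [e5, hμ', map_sum, Finset.mul_sum]
        refine Finset.sum_congr rfl fun b _ => ?_
        rw [map_smul, map_smul, mul_smul_comm, smul_mul_assoc]
      rw [e4, ← Finset.sum_sub_distrib]
      refine Finset.sum_congr rfl fun b _ => ?_
      rw [map_sub, sub_mul]
    have hne : ∃ b, μ b ≠ 0 := by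
      by_contra hcon'
      have hcon : ∀ b, μ b = 0 := fun b => by
        by_contra hb
        exact hcon' ⟨b, hb⟩
      refine me_one_ne (fun i => deg i - 1) ?_
      rw [hμ']
      refine Finset.sum_eq_zero fun b _ => ?_
      rw [hcon b, zero_smul]
    obtain ⟨b₀, hb₀⟩ := hne
    have hpb : pd b₀ = 0 := by
      by_contra hcon
      exact hb₀ (hμ b₀ hcon)
    have e6 := me_uniq deg hind (e1.symm.trans e3) b₀
    rw [hy b₀ hpb, sub_zero] at e6
    have e7 : gen deg i = (μ b₀)⁻¹ • ∑ a, l a • X a b₀ := by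
      rw [e6, smul_smul, inv_mul_cancel₀ hb₀, one_smul]
    rw [e7]
    refine Submodule.smul_mem _ _ (Submodule.sum_mem _ fun a _ => ?_)
    by_cases ha : pd a = deg i - 1
    · exact Submodule.smul_mem _ _ (Submodule.subset_span ⟨a, b₀, by omega, by omega, rfl⟩)
    · rw [hl a ha, zero_smul]
      exact zero_mem _
  · -- degrees
    by_cases hb : pd b = 0
    · exact Or.inl hb
    · refine Or.inr ⟨?_, ?_⟩
      · refine me_low (fun i => ?_) (hω b) (hind.ne_zero b) hb
        have := hk i
        omega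
      · have := hpd b
        omega

end Anick2
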