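import Pool.Agent.Helper98.G2.UB
import Pool.Agent.Helper98.G2.Stat

/-!
G2-R4. The universal algebra of `(B, pd)` is locally pure modulo odd letters if there are at most six parity blocks.

`t = ⟨(a, b), _⟩`. Given a threshold `m` and a block function `blk : ℕ → ℕ` such that for all degrees `i < j` in `range pd` with
`|b| ≤ i`, `j ≤ |a|` and (`j ≤ m` or `m < i`) one has `blk i ≤ blk j ≤ blk i + 2` and `j - i ≡ blk j - blk i (mod 2)`, put
`A` = the letters `x_{cc'}` with `|b| ≤ |c'|`, `|c| ≤ |a|` and (`|c| ≤ m` or `m < |c'|`), `O` = those with `blk |c| = blk |c'|`.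
* `x_{cc'}` has degree `|c| - |c'| + 1`: odd iff `blk |c| - blk |c'|` is even (`0` or `2`).
* `U.d (gen ⟨(c, c'), _⟩) = ∑_e ± gx c e * gx e c'`: only `|c'| < |e| < |c|` contribute (`gx_neg`), the product is `mon [⟨(c, e), _⟩, ⟨(e, c'), _⟩]`, and both letters are in `A`
  (`blk |c'| ≤ blk |e| ≤ blk |c|`). If `blk |c| = blk |c'|` both are in `O`. If the difference is `1`, one of the two letters is in `O`. If it is `2`: either one of the letters is in `O`, or
  both differences are `1`: both letters are even, and `x_{cc'}` is odd.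
* `t ∈ A`, or `d t` is in the ideal: for `|b| < |e| < |a|`: if `|e| ≤ m` the letter `x_{eb}` is in `A`, otherwise `x_{ae}` is in `A`. (`idealSpan`: two-sided ideal, see `Helper2/GCA`.)
`locallyPureMod_univB`: `t` even, so `|a| - |b|` is odd.
(i) `|b| ≥ K` (or `pd b ≠ 0`): `m = |b| + 2`, `blk i = i`: `|a| ≤ K + 5 + (1 if K even)` and `|a| - |b|` odd, so `|a| ≤ |b| + 5`: differences of degrees on each side are at most `2`.
(ii) `|b| = 0`, `K` even: `|a|` is odd, so `|a| ≤ K + 5`; `m = K + 2`, `blk 0 = 0`, `blk i = i - K` for `i ≥ K`: low degrees `0, K, K+1, K+2`, high degrees `K+3, K+4, K+5`.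
(iii) `|b| = 0`, `K` odd: `|a|` is odd, so `|a| ≤ K + 4`; `m = K + 1`, `blk 0 = 0`, `blk i = i - K + 1` for `i ≥ K`: low degrees `0, K, K+1`, high degrees `K+2, K+3, K+4`.
(If `K = 0` the hypothesis gives the degrees `0..6`: cases as (i), (ii) with `blk i = i`.)
-/

set_option autoImplicit false

namespace Anick2

private theorem r4_d_mem {B : Type} [Fintype B] {pd : B → ℕ} {U : MinimalSullivan (gdeg pd)}
    (hU : IsUnivB pd U) (i : GI pd) (M : Submodule ℚ (Lam (gdeg pd)))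
    (h : ∀ (e : B) (h1 : pd e < pd i.1.1) (h2 : pd i.1.2 < pd e),
      gen (gdeg pd) ⟨(i.1.1, e), h1⟩ * gen (gdeg pd) ⟨(e, i.1.2), h2⟩ ∈ M) :
    U.d (gen (gdeg pd) i) ∈ M := by
  have h0 : gen (gdeg pd) i = gx pd i.1.1 i.1.2 := (gx_pos pd i.2).symm
  rw [h0, hU]
  refine Submodule.sum_mem _ fun e _ => Submodule.smul_mem _ _ ?_
  by_cases h1 : pd e < pd i.1.1
  · by_cases h2 : pd i.1.2 < pd e
    · rw [gx_pos pd h1, gx_pos pd h2]
      exact h e h1 h2
    · rw [gx_neg pd h2, mul_zero]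
      exact zero_mem _
  · rw [gx_neg pd h1, zero_mul]
    exact zero_mem _

private theorem r4_mon2 {B : Type} {pd : B → ℕ} (x y : GI pd) :
    gen (gdeg pd) x * gen (gdeg pd) y = mon (gdeg pd) [x, y] := by
  rw [mon_cons, mon_cons, mon_nil, mul_one]

theorem pureMod_blk {B : Type} [Fintype B] {pd : B → ℕ} {U : MinimalSullivan (gdeg pd)}
    (hU : IsUnivB pd U) (t : GI pd) (m : ℕ) (blk : ℕ → ℕ)
    (h : ∀ c c' : B, pd t.1.2 ≤ pd c' → pd c' < pd c → pd c ≤ pd t.1.1 → (pd c ≤ m ∨ m < pd c') →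
      blk (pd c') ≤ blk (pd c) ∧ blk (pd c) ≤ blk (pd c') + 2 ∧
        (Even (pd c - pd c') ↔ Even (blk (pd c) - blk (pd c')))) :
    ∃ A O : Set (GI pd), U.PureMod A O ∧
      (t ∈ A ∨ U.d (gen (gdeg pd) t) ∈ idealSpan (gen (gdeg pd) '' A)) := by
  have hodd : ∀ i : GI pd, Even (pd i.1.1 - pd i.1.2) → Odd (gdeg pd i) := by
    intro i hi
    exact hi.add_one
  have heven : ∀ i : GI pd, ¬ Even (pd i.1.1 - pd i.1.2) → Even (gdeg pd i) := by
    intro i hi
    exact (Nat.not_even_iff_odd.mp hi).add_one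
  have hL : ∀ (i : GI pd) (e : B) (h1 : pd e < pd i.1.1) (_ : pd i.1.2 < pd e),
      (pd t.1.2 ≤ pd i.1.2 ∧ pd i.1.1 ≤ pd t.1.1 ∧ (pd i.1.1 ≤ m ∨ m < pd i.1.2)) →
      pd t.1.2 ≤ pd e ∧ pd i.1.1 ≤ pd t.1.1 ∧ (pd i.1.1 ≤ m ∨ m < pd e) := by
    intro i e h1 h2 h3
    exact ⟨by omega, h3.2.1, by omega⟩
  have hR : ∀ (i : GI pd) (e : B) (_ : pd e < pd i.1.1) (h2 : pd i.1.2 < pd e),
      (pd t.1.2 ≤ pd i.1.2 ∧ pd i.1.1 ≤ pd t.1.1 ∧ (pd i.1.1 ≤ m ∨ m < pd i.1.2)) →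
      pd t.1.2 ≤ pd i.1.2 ∧ pd e ≤ pd t.1.1 ∧ (pd e ≤ m ∨ m < pd i.1.2) := by
    intro i e h1 h2 h3
    exact ⟨h3.1, by omega, by omega⟩
  refine ⟨{i | pd t.1.2 ≤ pd i.1.2 ∧ pd i.1.1 ≤ pd t.1.1 ∧ (pd i.1.1 ≤ m ∨ m < pd i.1.2)},
    {i | (pd t.1.2 ≤ pd i.1.2 ∧ pd i.1.1 ≤ pd t.1.1 ∧ (pd i.1.1 ≤ m ∨ m < pd i.1.2)) ∧
      blk (pd i.1.1) = blk (pd i.1.2)}, ⟨?_, ?_, ?_, ?_⟩, Or.inr ?_⟩
  · intro i hi
    exact hi.1
  · rintro i ⟨hi, hb⟩
    refine hodd i ((h i.1.1 i.1.2 hi.1 i.2 hi.2.1 hi.2.2).2.2.mpr ?_)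
    rw [hb, Nat.sub_self]
    exact Even.zero
  · rintro i ⟨hi, hb⟩
    refine r4_d_mem hU i _ fun e h1 h2 => ?_
    rw [r4_mon2]
    have a1 := hL i e h1 h2 hi
    have a2 := hR i e h1 h2 hi
    have b1 := h i.1.1 e a1.1 h1 a1.2.1 a1.2.2
    have b2 := h e i.1.2 a2.1 h2 a2.2.1 a2.2.2
    refine Submodule.subset_span ⟨_, ?_, rfl⟩
    intro j hj
    simp only [List.mem_cons, List.not_mem_nil, or_false] at hj
    rcases hj with rfl | rfl
    · exact ⟨a1, by show blk (pd i.1.1) = blk (pd e); omega⟩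
    · exact ⟨a2, by show blk (pd e) = blk (pd i.1.2); omega⟩
  · intro i hi
    refine r4_d_mem hU i _ fun e h1 h2 => ?_
    rw [r4_mon2]
    have a1 := hL i e h1 h2 hi
    have a2 := hR i e h1 h2 hi
    have b0 := h i.1.1 i.1.2 hi.1 i.2 hi.2.1 hi.2.2
    have b1 := h i.1.1 e a1.1 h1 a1.2.1 a1.2.2
    have b2 := h e i.1.2 a2.1 h2 a2.2.1 a2.2.2
    refine Submodule.subset_span ⟨_, ?_, ?_, rfl⟩
    · intro j hj
      simp only [List.mem_cons, List.not_mem_nil, or_false] at hj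
      rcases hj with rfl | rfl
      · exact a1
      · exact a2
    · by_cases c1 : blk (pd i.1.1) = blk (pd e)
      · exact Or.inl ⟨⟨(i.1.1, e), h1⟩, List.mem_cons_self, a1, c1⟩
      · by_cases c2 : blk (pd e) = blk (pd i.1.2)
        · exact Or.inl ⟨⟨(e, i.1.2), h2⟩, List.mem_cons_of_mem _ List.mem_cons_self, a2, c2⟩
        · have d1 : blk (pd i.1.1) - blk (pd e) = 1 := by omega
          have d2 : blk (pd e) - blk (pd i.1.2) = 1 := by omega
          have d0 : blk (pd i.1.1) - blk (pd i.1.2) = 2 := by omega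
          refine Or.inr ⟨hodd i (b0.2.2.mpr (by rw [d0]; exact even_two)), ?_⟩
          intro j hj
          simp only [List.mem_cons, List.not_mem_nil, or_false] at hj
          rcases hj with rfl | rfl
          · refine heven _ fun hh => ?_
            have hh' := b1.2.2.mp hh
            rw [d1] at hh'
            exact Nat.not_even_one hh'
          · refine heven _ fun hh => ?_
            have hh' := b2.2.2.mp hh
            rw [d2] at hh'
            exact Nat.not_even_one hh'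
  · refine r4_d_mem hU t _ fun e h1 h2 => ?_
    by_cases he : pd e ≤ m
    · refine idealSpan_left (mem_idealSpan_self ?_) _
      exact ⟨⟨(e, t.1.2), h2⟩, ⟨le_rfl, h1.le, Or.inl he⟩, rfl⟩
    · refine idealSpan_right (mem_idealSpan_self ?_) _
      exact ⟨⟨(t.1.1, e), h1⟩, ⟨h2.le, le_rfl, Or.inr (not_le.mp he)⟩, rfl⟩

theorem locallyPureMod_univB {B : Type} [Fintype B] {pd : B → ℕ} {U : MinimalSullivan (gdeg pd)}
    (hU : IsUnivB pd U) (K : ℕ)
    (hK : ∀ b, pd b = 0 ∨ (K ≤ pd b ∧ pd b ≤ K + 5 + (K + 1) % 2)) : U.LocallyPureMod := by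
  intro t ht
  have ht2 := t.2
  have hd : (pd t.1.1 - pd t.1.2) % 2 = 1 := by
    have h1 : Even (pd t.1.1 - pd t.1.2 + 1) := ht
    rw [Nat.even_iff] at h1
    omega
  have ha := hK t.1.1
  have hb := hK t.1.2
  by_cases hKb : K ≤ pd t.1.2
  · refine pureMod_blk hU t (pd t.1.2 + 2) id fun c c' h1 h2 h3 h4 => ?_
    exact ⟨by show pd c' ≤ pd c; omega, by show pd c ≤ pd c' + 2; omega, Iff.rfl⟩
  · by_cases hKe : K % 2 = 0
    · refine pureMod_blk hU t (K + 2) (fun i => i - K) fun c c' h1 h2 h3 h4 => ?_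
      have hc := hK c
      have hc' := hK c'
      simp only [Nat.even_iff]
      refine ⟨by omega, by omega, by omega⟩
    · refine pureMod_blk hU t (K + 1) (fun i => i + 1 - K) fun c c' h1 h2 h3 h4 => ?_
      have hc := hK c
      have hc' := hK c'
      simp only [Nat.even_iff]
      refine ⟨by omega, by omega, by omega⟩

end Anick2
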