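import Pool.Agent.Helper98.G2.R1
import Pool.Agent.Helper98.G2.R2
import Pool.Agent.Helper98.G2.R3
import Pool.Agent.Helper98.G2.R4

/-!
G2-R5. Anick's conjecture for homotopy in six (seven) consecutive degrees, from the theorem for `LocallyPureMod`.

As `reduction` in `Helper98/RD/Final.lean`: `k < 2`: replace `k` by `2` (`S.two_le`; `deg i ≤ k + 5 + k % 2 ≤ 7 = 2 + 5 + 0`). `k ≥ 2`: `K = k - 1`, `M = k + 5 + k % 2`; `exists_mat_bd`: `pd b ≤ M - 1 = K + 5 + (K + 1) % 2`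
(`k % 2 = (K + 1) % 2`). `exists_univB`, `exists_mapB`; `EvenOnto S U J`: `gen i` is in the span of the `X a b` with `pd a - pd b + 1 = deg i`, and `X a b = J (-gx a b)`,
`gx a b ∈ hom (gdeg pd) (pd a - pd b + 1)`. `GI pd` is finite. Apply `main`.
-/

set_option autoImplicit false

namespace Anick2

theorem consecutive
    (main : ∀ (ι κ : Type) [Finite ι] [Finite κ] (deg : ι → ℕ) (deg' : κ → ℕ)
      (S : MinimalSullivan deg) (T : MinimalSullivan deg') (J : Lam deg' →ₐ[ℚ] Lam deg),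
      EvenOnto S T J → T.LocallyPureMod → ∀ n, S.GoodAt n)
    (ι : Type) [Finite ι] (deg : ι → ℕ) (S : MinimalSullivan deg) (k : ℕ)
    (hk : ∀ i, k ≤ deg i ∧ deg i ≤ k + 5 + k % 2) (n : ℕ) : S.GoodAt n := by
  -- reduce to `2 ≤ k`
  obtain ⟨k', hk2, hk'⟩ : ∃ k' : ℕ, 2 ≤ k' ∧ ∀ i, k' ≤ deg i ∧ deg i ≤ k' + 5 + k' % 2 := by
    rcases Nat.lt_or_ge k 2 with hlt | hge
    · refine ⟨2, le_rfl, fun i => ⟨S.two_le i, ?_⟩⟩
      have h2 := (hk i).2
      omega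
    · exact ⟨k, hge, hk⟩
  obtain ⟨K, rfl⟩ : ∃ K, k' = K + 1 := ⟨k' - 1, by omega⟩
  obtain ⟨B, hB, pd, X, hX, hgen, hpd⟩ := exists_mat_bd S K (K + 1 + 5 + (K + 1) % 2)
    (fun i => (hk' i).1) (fun i => (hk' i).2)
  obtain ⟨U, hU⟩ := exists_univB pd
  obtain ⟨J, hJh, hJd, hJX⟩ := exists_mapB S hX U hU
  have hbd : ∀ b, pd b = 0 ∨ (K ≤ pd b ∧ pd b ≤ K + 5 + (K + 1) % 2) := by
    intro b
    rcases hpd b with h0 | ⟨h1, h2⟩
    · exact Or.inl h0
    · exact Or.inr ⟨h1, by omega⟩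
  refine main ι (GI pd) deg (gdeg pd) S U J ⟨hJh, hJd, fun i _ => ?_⟩
    (locallyPureMod_univB hU K hbd) n
  have h1 : Submodule.span ℚ {x | ∃ a b, pd b < pd a ∧ pd a - pd b + 1 = deg i ∧ x = X a b} ≤
      (hom (gdeg pd) (deg i)).map J.toLinearMap := by
    rw [Submodule.span_le]
    rintro x ⟨a, b, hab, hd, rfl⟩
    refine ⟨-gx pd a b, ?_, ?_⟩
    · refine Submodule.neg_mem _ ?_
      rw [gx_pos pd hab]
      have h3 := gen_mem_hom (gdeg pd) ⟨(a, b), hab⟩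
      have h4 : gdeg pd ⟨(a, b), hab⟩ = deg i := hd
      rw [h4] at h3
      exact h3
    · change J (-gx pd a b) = X a b
      rw [map_neg, hJX, neg_neg]
  obtain ⟨a, ha, hJa⟩ := h1 (hgen i)
  refine ⟨a, ha, ?_⟩
  have h2 : J a = gen deg i := hJa
  rw [h2, sub_self]
  exact zero_mem _

end Anick2
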