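import Pool.Agent.Helper98.RD.MapU

/-!
G2-R0. The universal coformal algebra of a finite graded set `(B, pd)`: definitions.
-/

set_option autoImplicit false

namespace Anick2

/-- The index set of the generators `x_{ab}`, `|b| < |a|`. -/
abbrev GI {B : Type} (pd : B → ℕ) : Type := {p : B × B // pd p.2 < pd p.1}

/-- The degree of `x_{ab}` is `|a| - |b| + 1`. -/
def gdeg {B : Type} (pd : B → ℕ) (p : GI pd) : ℕ := pd p.1.1 - pd p.1.2 + 1

/-- The generator `x_{ab}`, and `0` if `|a| ≤ |b|`. -/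
noncomputable def gx {B : Type} (pd : B → ℕ) (a b : B) : Lam (gdeg pd) :=
  if h : pd b < pd a then gen (gdeg pd) ⟨(a, b), h⟩ else 0

/-- `d x_{ab} = ∑_c (-1)^(|a|+|c|+1) x_{ac} x_{cb}`. -/
def IsUnivB {B : Type} [Fintype B] (pd : B → ℕ) (U : MinimalSullivan (gdeg pd)) : Prop :=
  ∀ a b : B, U.d (gx pd a b) = ∑ c : B, (-1 : ℚ) ^ (pd a + pd c + 1) • (gx pd a c * gx pd c b)

theorem gx_pos {B : Type} (pd : B → ℕ) {a b : B} (h : pd b < pd a) :
    gx pd a b = gen (gdeg pd) ⟨(a, b), h⟩ := by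
  unfold gx
  rw [dif_pos h]

theorem gx_neg {B : Type} (pd : B → ℕ) {a b : B} (h : ¬ pd b < pd a) : gx pd a b = 0 := by
  unfold gx
  rw [dif_neg h]

end Anick2
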